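import Mathlib

namespace Pool.Agent.H.MP_d583b7_an

open Filter Topology Set

variable {E F : Type*} [NormedAddCommGroup E] [NormedSpace ℂ E] [NormedAddCommGroup F]
  [NormedSpace ℂ F]

/-- bounded below on the common kernel of finitely many functionals of a family -/
def BB {ι : Type*} (Λ : ι → E →L[ℂ] ℂ) (T : E →L[ℂ] F) : Prop :=
  ∃ (s : Finset ι) (c : ℝ), 0 < c ∧ ∀ x, (∀ i ∈ s, Λ i x = 0) → c * ‖x‖ ≤ ‖T x‖

/-- strictly singular -/
def SS (S : E →L[ℂ] F) : Prop :=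
  ∀ M : Submodule ℂ E, ¬ FiniteDimensional ℂ M → ∀ ε : ℝ, 0 < ε →
    ∃ u ∈ M, u ≠ 0 ∧ ‖S u‖ ≤ ε * ‖u‖

lemma SS.smul {S : E →L[ℂ] F} (h : SS S) (a : ℂ) : SS (a • S) := by
  intro M hM ε hε
  obtain ⟨u, h1, h2, h3⟩ := h M hM (ε / (‖a‖ + 1)) (by positivity)
  refine ⟨u, h1, h2, ?_⟩
  rw [smul_apply, norm_smul]
  calc _ ≤ (‖a‖ + 1) * (ε / (‖a‖ + 1) * ‖u‖) := by gcongr; linarith
    _ = _ := by field_simp

theorem pert {ι : Type*} (Λ : ι → E →L[ℂ] ℂ)
    (hΛ : ∀ x, ∃ i, ‖Λ i‖ ≤ 1 ∧ ‖x‖ ≤ 2 * ‖Λ i x‖) {A S : E →L[ℂ] F} (hA : BB Λ A) (hS : SS S) :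
    BB Λ (A + S) := by
  classical
  by_contra hc
  obtain ⟨s₀, c, hc0, hA⟩ := hA
  set T := A + S
  have h1 : ∀ (s : Finset ι) (n : ℕ), ∃ x, ‖x‖ = 1 ∧ (∀ i ∈ s, Λ i x = 0) ∧
      ‖T x‖ ≤ c / 16 * (1 / 6) ^ n := by
    intro s n
    by_contra h
    refine hc ⟨s, c / 16 * (1 / 6) ^ n, by positivity, fun x hx => ?_⟩
    by_contra h2
    rw [not_le] at h2
    have hx0 : 0 < ‖x‖ := by
      by_contra h3
      have : ‖x‖ = 0 := le_antisymm (not_lt.1 h3) (norm_nonneg _)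
      rw [this, mul_zero] at h2
      exact absurd h2 (not_lt.2 (norm_nonneg _))
    have e : ‖((‖x‖⁻¹ : ℝ) : ℂ)‖ = ‖x‖⁻¹ := by simp
    refine h ⟨((‖x‖⁻¹ : ℝ) : ℂ) • x, ?_, fun i hi => by rw [map_smul, hx i hi, smul_zero], ?_⟩
    · rw [norm_smul, e, inv_mul_cancel₀ hx0.ne']
    · rw [map_smul, norm_smul, e, inv_mul_le_iff₀ hx0]
      linarith
  choose X hX1 hX2 hX3 using h1
  choose I hI1 hI2 using hΛ
  let s : ℕ → Finset ι := fun n => Nat.rec s₀ (fun n s => insert (I (X s n)) s) n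
  set x : ℕ → E := fun n => X (s n) n
  have hs : ∀ n, s (n + 1) = insert (I (x n)) (s n) := fun n => rfl
  have mono : Monotone s := monotone_nat_of_le_succ fun n => by
    rw [hs]; exact Finset.subset_insert _ _
  have z : ∀ m n, m < n → Λ (I (x m)) (x n) = 0 := fun m n h =>
    hX2 _ _ _ (mono h (by rw [hs]; exact Finset.mem_insert_self _ _))
  have est : ∀ (a : ℕ → ℂ) (N n : ℕ), n < N →
      ‖a n‖ ≤ 2 * (‖∑ m ∈ Finset.range N, a m • x m‖ + ∑ m ∈ Finset.range n, ‖a m‖) := by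
    intro a N n hn
    set f := Λ (I (x n))
    have e : f (∑ m ∈ Finset.range N, a m • x m) =
        ∑ m ∈ Finset.range n, a m * f (x m) + a n * f (x n) := by
      rw [map_sum, ← Finset.sum_range_succ (fun m => a m * f (x m))]
      symm
      refine Finset.sum_subset_zero_on_sdiff (Finset.range_mono hn) (fun m hm => ?_)
        fun m _ => by rw [map_smul, smul_eq_mul]
      simp only [Finset.mem_sdiff, Finset.mem_range] at hm
      rw [map_smul, z n m (by omega), smul_zero]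
    have b : ∀ y, ‖f y‖ ≤ ‖y‖ := fun y => by simpa using f.le_of_opNorm_le (hI1 _) y
    have b1 := b (∑ m ∈ Finset.range N, a m • x m)
    have b2 : ‖∑ m ∈ Finset.range n, a m * f (x m)‖ ≤ ∑ m ∈ Finset.range n, ‖a m‖ := by
      refine norm_sum_le_of_le _ fun m _ => ?_
      rw [norm_mul]
      exact mul_le_of_le_one_right (norm_nonneg _) ((b _).trans (hX1 _ _).le)
    have b3 : (1 : ℝ) ≤ 2 * ‖f (x n)‖ := (hX1 _ _).ge.trans (hI2 (x n))
    have b4 := norm_le_add_norm_add' (∑ m ∈ Finset.range n, a m * f (x m)) (a n * f (x n))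
    rw [← e, norm_mul] at b4
    nlinarith [norm_nonneg (a n)]
  have est2 : ∀ (a : ℕ → ℂ) (N n : ℕ), n ≤ N →
      ‖∑ m ∈ Finset.range N, a m • x m‖ + ∑ m ∈ Finset.range n, ‖a m‖ ≤
        3 ^ n * ‖∑ m ∈ Finset.range N, a m • x m‖ := by
    intro a N n
    induction n with
    | zero => simp
    | succ n ih =>
      intro hn
      have := est a N n hn
      have := ih (by omega)
      rw [Finset.sum_range_succ _ n, pow_succ]
      linarith
  have rep : ∀ l : ℕ →₀ ℂ, ∃ N, (∀ n, N ≤ n → l n = 0) ∧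
      Finsupp.linearCombination ℂ x l = ∑ m ∈ Finset.range N, l m • x m := fun l => by
    obtain ⟨N, hN⟩ := l.support.exists_nat_subset_range
    refine ⟨N, fun n hn => ?_, ?_⟩
    · by_contra h
      have := Finset.mem_range.1 (hN (Finsupp.mem_support_iff.2 h))
      omega
    · rw [Finsupp.linearCombination_apply, Finsupp.sum_of_support_subset _ hN _ (by simp)]
  have li : LinearIndependent ℂ x := by
    rw [linearIndependent_iff]
    intro l hl
    obtain ⟨N, h1, h2⟩ := rep l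
    ext n
    by_cases h : N ≤ n
    · exact h1 n h
    · have a1 := est l N n (by omega)
      have a2 := est2 l N n (by omega)
      rw [← h2, hl, norm_zero] at a1 a2
      exact norm_le_zero_iff.1 (by linarith)
  have inf : ¬ FiniteDimensional ℂ (Submodule.span ℂ (range x)) := fun h =>
    Module.Finite.not_linearIndependent_of_infinite _ (linearIndependent_span li)
  obtain ⟨u, hu, hu0, hu1⟩ := hS _ inf (c / 4) (by positivity)
  rw [← Finsupp.range_linearCombination] at hu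
  obtain ⟨l, rfl⟩ := hu
  obtain ⟨N, -, h2⟩ := rep l
  set u := Finsupp.linearCombination ℂ x l
  have a1 : c * ‖u‖ ≤ ‖A u‖ := hA u fun i hi => by
    rw [h2, map_sum]
    exact Finset.sum_eq_zero fun m _ => by
      rw [map_smul, hX2 _ _ _ (mono (Nat.zero_le m) hi), smul_zero]
  have a2 : ‖T u‖ ≤ c / 4 * ‖u‖ := by
    calc ‖T u‖ = ‖∑ m ∈ Finset.range N, l m • T (x m)‖ := by rw [h2, map_sum]; simp
      _ ≤ ∑ m ∈ Finset.range N, c / 8 * ‖u‖ * (1 / 2) ^ m := by
          refine norm_sum_le_of_le _ fun m hm => ?_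
          have hm := Finset.mem_range.1 hm
          have b1 := est l N m hm
          have b2 := est2 l N m hm.le
          rw [← h2] at b1 b2
          rw [norm_smul]
          calc _ ≤ (2 * (3 ^ m * ‖u‖)) * (c / 16 * (1 / 6) ^ m) := by
                gcongr
                · linarith
                · exact hX3 _ _
            _ = c / 8 * ‖u‖ * (3 ^ m * (1 / 6) ^ m) := by ring
            _ = _ := by rw [← mul_pow]; norm_num
      _ ≤ c / 8 * ‖u‖ * 2 := by
          rw [← Finset.mul_sum]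
          gcongr
          exact sum_geometric_two_le N
      _ = _ := by ring
  have a3 : A u = T u - S u := by simp [T]
  have a4 := norm_sub_le (T u) (S u)
  have a5 : 0 < c * ‖u‖ := mul_pos hc0 (norm_pos_iff.2 hu0)
  rw [a3] at a1
  linarith

theorem hump (e : ℕ → E →L[ℂ] ℂ) (C : ℝ) (he : ∀ u (s : Finset ℕ), ∑ n ∈ s, ‖e n u‖ ≤ C * ‖u‖)
    (M : Submodule ℂ E) (hM : ¬ FiniteDimensional ℂ M) (ε : ℝ) (hε : 0 < ε) :
    ∃ u ∈ M, u ≠ 0 ∧ ∀ n, ‖e n u‖ ≤ ε * ‖u‖ := by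
  classical
  by_contra hc
  have h0 : ∀ N : ℕ, ∃ w ∈ M, (∀ n < N, e n w = 0) ∧ (∀ n, ‖e n w‖ ≤ 1) ∧
      ∃ n, 3 / 4 ≤ ‖e n w‖ := by
    intro N
    let g : M →ₗ[ℂ] (Fin N → ℂ) := LinearMap.pi fun i => (e i : E →ₗ[ℂ] ℂ) ∘ₗ M.subtype
    have : LinearMap.ker g ≠ ⊥ := fun h =>
      hM (FiniteDimensional.of_injective g (LinearMap.ker_eq_bot.1 h))
    obtain ⟨w, hw, hw0⟩ := Submodule.exists_mem_ne_zero_of_ne_bot this
    have hw1 : ∀ n < N, e n w = 0 := fun n hn => congrFun (LinearMap.mem_ker.1 hw) ⟨n, hn⟩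
    have hb : BddAbove (range fun n => ‖e n (w : E)‖) :=
      ⟨C * ‖(w : E)‖, by rintro _ ⟨n, rfl⟩; simpa using he w {n}⟩
    set S := ⨆ n, ‖e n (w : E)‖
    have hS : ∀ n, ‖e n (w : E)‖ ≤ S := le_ciSup hb
    have hS0 : 0 < S := by
      by_contra h
      refine hc ⟨w, w.2, fun h => hw0 (Subtype.ext h), fun n => (hS n).trans ?_⟩
      exact (not_lt.1 h).trans (by positivity)
    obtain ⟨n, hn⟩ := exists_lt_of_lt_ciSup (f := fun n => ‖e n (w : E)‖) (b := 3 / 4 * S)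
      (show 3 / 4 * S < S by linarith)
    have e1 : ‖((S⁻¹ : ℝ) : ℂ)‖ = S⁻¹ := by simp [hS0.le]
    refine ⟨((S⁻¹ : ℝ) : ℂ) • w, M.smul_mem _ w.2, fun n hn => ?_, fun n => ?_, n, ?_⟩
    · rw [map_smul, hw1 n hn, smul_zero]
    · rw [map_smul, norm_smul, e1, inv_mul_le_iff₀ hS0, mul_one]; exact hS n
    · rw [map_smul, norm_smul, e1, le_inv_mul_iff₀ hS0]; linarith
  have h1 : ∀ k : ℕ, ∃ v ∈ M, ∃ s : Finset ℕ, s.card = k ∧ (∀ n, ‖e n v‖ ≤ 2) ∧
      ∀ n ∈ s, 1 / 2 ≤ ‖e n v‖ := by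
    intro k
    induction k with
    | zero => exact ⟨0, M.zero_mem, ∅, rfl, by simp, by simp⟩
    | succ k ih =>
      obtain ⟨v, hv, s, h1, h2, h3⟩ := ih
      have sm : Summable fun n => ‖e n v‖ := summable_of_sum_le (fun _ => norm_nonneg _) (he v)
      obtain ⟨N₁, hN₁⟩ := eventually_atTop.1
        (sm.tendsto_atTop_zero.eventually (gt_mem_nhds (by norm_num : (0 : ℝ) < 1 / 4)))
      obtain ⟨N₂, hN₂⟩ := s.exists_nat_subset_range
      obtain ⟨w, hw, w1, w2, n₀, w3⟩ := h0 (N₁ + N₂)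
      have hn₀ : N₁ + N₂ ≤ n₀ := by
        by_contra h
        rw [w1 n₀ (by omega), norm_zero] at w3
        norm_num at w3
      have hs : ∀ n ∈ s, n < N₂ := fun n hn => Finset.mem_range.1 (hN₂ hn)
      refine ⟨v + w, M.add_mem hv hw, insert n₀ s, ?_, fun n => ?_, fun n hn => ?_⟩
      · rw [Finset.card_insert_of_notMem fun h => by have := hs _ h; omega, h1]
      · rw [map_add]
        by_cases h : n < N₁ + N₂
        · rw [w1 n h, add_zero]; exact h2 n
        · have := hN₁ n (by omega)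
          have := w2 n
          exact (norm_add_le _ _).trans (by linarith)
      · rw [map_add]
        rcases Finset.mem_insert.1 hn with rfl | hn
        · have := hN₁ n (by omega)
          have := norm_le_add_norm_add' (e n v) (e n w)
          linarith
        · rw [w1 n (by have := hs n hn; omega), add_zero]; exact h3 n hn
  obtain ⟨k, hk⟩ := exists_nat_gt (4 * |C| / ε)
  obtain ⟨v, hv, s, a1, a2, a3⟩ := h1 k
  have a4 : (k : ℝ) * (1 / 2) ≤ |C| * ‖v‖ := by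
    have := Finset.card_nsmul_le_sum s _ _ a3
    rw [a1, nsmul_eq_mul] at this
    exact this.trans ((he v s).trans (by gcongr; exact le_abs_self C))
  rw [div_lt_iff₀ hε] at hk
  have a5 : 2 < ε * ‖v‖ := by
    by_contra h
    have h := not_lt.1 h
    have : |C| * (ε * ‖v‖) ≤ |C| * 2 := by gcongr
    nlinarith
  refine hc ⟨v, hv, fun h => ?_, fun n => (a2 n).trans a5.le⟩
  rw [h, norm_zero] at a5
  linarith

end Pool.Agent.H.MP_d583b7_an
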