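import Pool.Agent.H.MP_d583b7_an.A

namespace Pool.Agent.H.MP_d583b7_an

open Filter Topology Set

variable {E F : Type*} [NormedAddCommGroup E] [NormedSpace ℂ E] [NormedAddCommGroup F]
  [NormedSpace ℂ F] [CompleteSpace E] [CompleteSpace F]

theorem plus_bb (T : E →L[ℂ] F) (h1 : IsClosed (T.range : Set F)) [FiniteDimensional ℂ T.ker] :
    BB (fun f : E →L[ℂ] ℂ => f) T := by
  classical
  obtain ⟨p, hp⟩ := Submodule.ClosedComplemented.of_finiteDimensional T.ker
  have inj : Function.Injective (T.prod p) := by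
    rw [injective_iff_map_eq_zero]
    intro x hx
    have a := Prod.ext_iff.1 hx
    have := hp ⟨x, a.1⟩
    exact congrArg Subtype.val (this.symm.trans a.2)
  have cl : IsClosed (range (T.prod p)) := by
    have : range (T.prod p) = Prod.fst ⁻¹' (T.range : Set F) := by
      ext ⟨y, k⟩
      constructor
      · rintro ⟨x, hx⟩
        exact ⟨x, (Prod.ext_iff.1 hx).1⟩
      · rintro ⟨x, hx⟩
        refine ⟨x - p x + k, Prod.ext ?_ ?_⟩
        · have a1 : T (p x) = 0 := (p x).2
          have a2 : T k = 0 := k.2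
          change T (x - p x + k) = y
          rw [map_add, map_sub, a1, a2, sub_zero, add_zero]
          exact hx
        · change p (x - p x + k) = k
          rw [map_add, map_sub, hp, hp, sub_self, zero_add]
    rw [this]
    exact h1.preimage continuous_fst
  obtain ⟨K, hK⟩ := (T.prod p).antilipschitz_of_injective_of_isClosed_range inj cl
  let b := Module.finBasis ℂ T.ker
  refine ⟨Finset.univ.image fun i => (b.coord i).toContinuousLinearMap ∘L p, 1 / (K + 1),
    by positivity, fun x hx => ?_⟩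
  have hx0 : p x = 0 := b.forall_coord_eq_zero_iff.1 fun i =>
    hx _ (Finset.mem_image_of_mem _ (Finset.mem_univ i))
  have := ZeroHomClass.bound_of_antilipschitz _ hK x
  rw [ContinuousLinearMap.prod_apply, hx0, Prod.norm_mk, norm_zero,
    max_eq_left (norm_nonneg _)] at this
  rw [div_mul_eq_mul_div, one_mul, div_le_iff₀ (by positivity)]
  nlinarith [norm_nonneg (T x)]

omit [CompleteSpace F] in
theorem bb_plus (T : E →L[ℂ] F) (h : BB (fun f : E →L[ℂ] ℂ => f) T) :
    IsClosed (T.range : Set F) ∧ FiniteDimensional ℂ T.ker := by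
  obtain ⟨s, c, hc, h⟩ := h
  let g : E →L[ℂ] (s → ℂ) := ContinuousLinearMap.pi fun i => i.1
  have hg : ∀ x, g x = 0 → c * ‖x‖ ≤ ‖T x‖ := fun x hx => h x fun i hi => congrFun hx ⟨i, hi⟩
  constructor
  · haveI : g.ker.CoFG := g.toLinearMap.quotKerEquivRange.symm.finiteDimensional
    refine LinearMap.isClosed_range_of_isClosed_map_of_finiteDimensional_quotient (s := g.ker) ?_
    haveI : CompleteSpace g.ker := g.isClosed_ker.completeSpace_coe
    have an : AntilipschitzWith (Real.toNNReal c⁻¹) (T ∘L g.ker.subtypeL) := by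
      refine AddMonoidHomClass.antilipschitz_of_bound _ fun x => ?_
      rw [Real.coe_toNNReal _ (by positivity), le_inv_mul_iff₀ hc]
      exact hg x x.2
    convert an.isClosed_range (T ∘L g.ker.subtypeL).uniformContinuous using 1
    ext y
    constructor
    · rintro ⟨x, hx, rfl⟩
      exact ⟨⟨x, hx⟩, rfl⟩
    · rintro ⟨x, rfl⟩
      exact ⟨x, x.2, rfl⟩
  · refine FiniteDimensional.of_injective (g.toLinearMap ∘ₗ T.ker.subtype) ?_
    rw [injective_iff_map_eq_zero]
    intro x hx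
    have a1 := hg x hx
    have a2 : T x = 0 := x.2
    rw [a2, norm_zero] at a1
    exact Subtype.ext (norm_le_zero_iff.1 (by nlinarith [norm_nonneg (x : E)]))

/-- the adjoint -/
noncomputable def adj (T : E →L[ℂ] F) : (F →L[ℂ] ℂ) →L[ℂ] (E →L[ℂ] ℂ) :=
  (ContinuousLinearMap.compL ℂ E F ℂ).flip T

omit [CompleteSpace E] [CompleteSpace F] in
lemma adj_apply (T : E →L[ℂ] F) (f : F →L[ℂ] ℂ) : adj T f = f ∘L T := rfl

/-- evaluation -/
noncomputable def ev (y : F) : (F →L[ℂ] ℂ) →L[ℂ] ℂ := ContinuousLinearMap.apply ℂ ℂ y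

omit [CompleteSpace F] in
lemma ev_norming (f : F →L[ℂ] ℂ) : ∃ y, ‖ev y‖ ≤ 1 ∧ ‖f‖ ≤ 2 * ‖ev y f‖ := by
  have n : ∀ y : F, ‖y‖ ≤ 1 → ‖ev y‖ ≤ 1 := fun y hy =>
    ContinuousLinearMap.opNorm_le_bound _ zero_le_one fun g => by
      rw [mul_comm]; exact g.le_opNorm_of_le hy
  by_cases h : ‖f‖ = 0
  · exact ⟨0, n 0 (by simp), by rw [h]; positivity⟩
  · have : 0 < ‖f‖ := lt_of_le_of_ne (norm_nonneg f) (Ne.symm h)
    obtain ⟨y, h1, h2⟩ := f.exists_lt_apply_of_lt_opNorm (r := ‖f‖ / 2) (by linarith)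
    exact ⟨y, n y h1.le, by change ‖f‖ ≤ 2 * ‖f y‖; linarith⟩

omit [CompleteSpace F] in
lemma id_norming (x : F) : ∃ f : F →L[ℂ] ℂ, ‖f‖ ≤ 1 ∧ ‖x‖ ≤ 2 * ‖f x‖ := by
  obtain ⟨f, h1, h2⟩ := exists_dual_vector'' ℂ x
  refine ⟨f, h1, ?_⟩
  rw [h2]
  simp only [Complex.coe_algebraMap, Complex.norm_real, norm_norm]
  linarith [norm_nonneg x]

lemma coprod_surj (T : E →L[ℂ] F) (N : Submodule ℂ F) (h : T.range ⊔ N = ⊤) :
    Function.Surjective (T.coprod N.subtypeL) := fun y => by
  obtain ⟨_, ⟨x, rfl⟩, n, hn, e⟩ := Submodule.mem_sup.1 (h ▸ Submodule.mem_top : y ∈ T.range ⊔ N)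
  exact ⟨(x, ⟨n, hn⟩), e⟩

theorem minus_bb (T : E →L[ℂ] F) [FiniteDimensional ℂ (F ⧸ T.range)] : BB ev (adj T) := by
  obtain ⟨N, hN⟩ := T.range.exists_isCompl
  haveI : FiniteDimensional ℂ N := (T.range.quotientEquivOfIsCompl N hN).finiteDimensional
  haveI : CompleteSpace N := N.closed_of_finiteDimensional.completeSpace_coe
  obtain ⟨C, hC, h⟩ := (T.coprod N.subtypeL).exists_preimage_norm_le
    (coprod_surj T N hN.sup_eq_top)
  obtain ⟨s, hs⟩ := (Submodule.fg_iff_finiteDimensional N).2 inferInstance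
  refine ⟨s, C⁻¹, by positivity, fun f hf => ?_⟩
  have hN' : N ≤ f.ker := by
    rw [← hs, Submodule.span_le]
    exact fun y hy => hf y hy
  rw [inv_mul_le_iff₀ hC]
  refine f.opNorm_le_bound (mul_nonneg hC.le (norm_nonneg (adj T f))) fun y => ?_
  obtain ⟨⟨x, n⟩, h1, h2⟩ := h y
  have e : f y = adj T f x := by
    have : f n = 0 := hN' n.2
    rw [← h1]
    change f (T x + n) = f (T x)
    rw [map_add, this, add_zero]
  rw [e]
  refine ((adj T f).le_opNorm_of_le ((norm_fst_le (x, n)).trans h2)).trans (le_of_eq ?_)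
  ring

omit [CompleteSpace F] in
theorem surj_of_dual (U : E →L[ℂ] F) {c : ℝ} (hc : 0 < c)
    (h : ∀ g : F →L[ℂ] ℂ, c * ‖g‖ ≤ ‖g ∘L U‖) : Function.Surjective U := by
  have h1 : ∀ z, ∃ x, ‖z - U x‖ ≤ 1 / 2 * ‖z‖ ∧ ‖x‖ ≤ c⁻¹ * ‖z‖ := by
    intro z
    by_cases hz : z = 0
    · exact ⟨0, by simp [hz], by simp [hz]⟩
    have hz := norm_pos_iff.2 hz
    have m : z ∈ closure (U '' Metric.closedBall 0 (c⁻¹ * ‖z‖)) := by
      by_contra m
      obtain ⟨f, u, f1, f2⟩ := RCLike.geometric_hahn_banach_closed_point (𝕜 := ℂ)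
        ((convex_closedBall 0 _).is_linear_image
          (U.restrictScalars ℝ).toLinearMap.isLinear).closure isClosed_closure m
      have u0 : 0 < u := by
        simpa using f1 0 (subset_closure ⟨0, Metric.mem_closedBall_self (by positivity),
          map_zero _⟩)
      have b : ‖f ∘L U‖ ≤ u / (c⁻¹ * ‖z‖) := by
        refine ContinuousLinearMap.opNorm_le_of_unit_norm (by positivity) fun x hx => ?_
        obtain ⟨θ, t1, t2⟩ := Complex.exists_norm_eq_mul_self (f (U x))
        have := f1 (U ((((c⁻¹ * ‖z‖ : ℝ) : ℂ) * θ) • x)) (subset_closure ⟨_, by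
          rw [mem_closedBall_zero_iff, norm_smul, norm_mul, t1, hx, Complex.norm_real,
            Real.norm_of_nonneg (by positivity)]
          simp, rfl⟩)
        rw [map_smul, map_smul, smul_eq_mul, mul_assoc, ← t2, ← Complex.ofReal_mul] at this
        rw [le_div_iff₀ (by positivity), mul_comm]
        exact le_of_lt this
      have b2 := (h f).trans b
      rw [le_div_iff₀ (by positivity)] at b2
      have b3 : RCLike.re (f z) ≤ ‖f‖ * ‖z‖ := (RCLike.re_le_norm _).trans (f.le_opNorm z)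
      have : c * ‖f‖ * (c⁻¹ * ‖z‖) = ‖f‖ * ‖z‖ := by field_simp
      linarith
    obtain ⟨_, ⟨x, x1, rfl⟩, x2⟩ := Metric.mem_closure_iff.1 m (1 / 2 * ‖z‖) (by positivity)
    exact ⟨x, by rw [← dist_eq_norm]; exact x2.le, mem_closedBall_zero_iff.1 x1⟩
  choose g g1 g2 using h1
  intro y
  let r : ℕ → F := fun n => (fun z => z - U (g z))^[n] y
  have hr : ∀ n, r (n + 1) = r n - U (g (r n)) := fun n => Function.iterate_succ_apply' _ _ _
  have hn : ∀ n, ‖r n‖ ≤ ‖y‖ * (1 / 2) ^ n := fun n => by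
    induction n with
    | zero => simp [r]
    | succ n ih => rw [hr, pow_succ]; linarith [g1 (r n)]
  have su : Summable fun n => g (r n) :=
    Summable.of_norm_bounded ((summable_geometric_two.mul_left ‖y‖).mul_left c⁻¹) fun n =>
      (g2 _).trans (by gcongr; exact hn n)
  have e : ∀ n, ∑ i ∈ Finset.range n, U (g (r i)) = y - r n := fun n => by
    induction n with
    | zero => simp [r]
    | succ n ih => rw [Finset.sum_range_succ, ih, hr]; abel
  have L1 := (U.hasSum su.hasSum).tendsto_sum_nat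
  simp only [e] at L1
  have L2 : Tendsto (fun n => y - r n) atTop (𝓝 (y - 0)) := by
    refine tendsto_const_nhds.sub (squeeze_zero_norm hn ?_)
    simpa using (tendsto_pow_atTop_nhds_zero_of_lt_one (r := (1 / 2 : ℝ)) (by norm_num)
      (by norm_num)).const_mul ‖y‖
  exact ⟨_, (tendsto_nhds_unique L1 L2).trans (sub_zero y)⟩

theorem bb_minus (T : E →L[ℂ] F) (h : BB ev (adj T)) :
    IsClosed (T.range : Set F) ∧ FiniteDimensional ℂ (F ⧸ T.range) := by
  obtain ⟨s, c, hc, h⟩ := h
  set N := Submodule.span ℂ (s : Set F)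
  haveI : IsClosed (N : Set F) := N.closed_of_finiteDimensional
  have sj : Function.Surjective (N.mkQL ∘L T) := by
    refine surj_of_dual _ hc fun g => le_trans ?_ (h (g ∘L N.mkQL) fun y hy => ?_)
    · gcongr
      refine g.opNorm_le_bound (norm_nonneg (g ∘L N.mkQL)) fun z => ?_
      refine le_of_forall_pos_le_add fun ε hε => ?_
      obtain ⟨y, rfl, hy⟩ := Submodule.Quotient.norm_mk_lt z
        (ε := ε / (‖g ∘L N.mkQL‖ + 1)) (by positivity)
      refine ((g ∘L N.mkQL).le_opNorm_of_le hy.le).trans ?_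
      rw [mul_add]
      gcongr
      rw [mul_div_assoc', div_le_iff₀ (by positivity)]
      nlinarith
    · change g (Submodule.Quotient.mk y) = 0
      rw [(Submodule.Quotient.mk_eq_zero N).2 (Submodule.subset_span hy), map_zero]
  have fd : FiniteDimensional ℂ (F ⧸ T.range) := by
    refine Module.Finite.of_surjective (T.range.mkQ ∘ₗ N.subtype) fun z => ?_
    obtain ⟨y, rfl⟩ := T.range.mkQ_surjective z
    obtain ⟨x, hx⟩ := sj (Submodule.Quotient.mk y)
    refine ⟨⟨y - T x, (Submodule.Quotient.eq N).1 hx.symm⟩, (Submodule.Quotient.eq _).2 ?_⟩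
    exact ⟨-x, by simp⟩
  refine ⟨?_, fd⟩
  obtain ⟨N', hN⟩ := T.range.exists_isCompl
  haveI : FiniteDimensional ℂ N' := (T.range.quotientEquivOfIsCompl N' hN).finiteDimensional
  haveI : CompleteSpace N' := N'.closed_of_finiteDimensional.completeSpace_coe
  rw [← ((T.coprod N'.subtypeL).isQuotientMap (coprod_surj T N' hN.sup_eq_top)).isClosed_preimage]
  suffices e : T.coprod N'.subtypeL ⁻¹' (T.range : Set F) = {q : E × N' | q.2 = 0} by
    rw [e]; exact isClosed_eq continuous_snd continuous_const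
  ext ⟨x, n⟩
  change T x + n ∈ T.range ↔ n = 0
  rw [T.range.add_mem_iff_right (show T x ∈ T.range from ⟨x, rfl⟩)]
  constructor
  · exact fun h => Subtype.ext (Submodule.disjoint_def.1 hN.disjoint _ h n.2)
  · rintro rfl; exact T.range.zero_mem

def SemiFredholm (A : E →L[ℂ] F) : Prop :=
  IsClosed (A.range : Set F) ∧ (FiniteDimensional ℂ A.ker ∨ FiniteDimensional ℂ (F ⧸ A.range))

theorem SemiFredholm.add {A S : E →L[ℂ] F} (hA : SemiFredholm A) (h1 : SS S) (h2 : SS (adj S)) :
    SemiFredholm (A + S) := by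
  rcases hA with ⟨a, b | b⟩
  · have := bb_plus _ (pert _ id_norming (plus_bb A a) h1)
    exact ⟨this.1, Or.inl this.2⟩
  · have := pert _ ev_norming (minus_bb A) h2
    rw [show adj A + adj S = adj (A + S) from (map_add _ A S).symm] at this
    have := bb_minus _ this
    exact ⟨this.1, Or.inr this.2⟩

end Pool.Agent.H.MP_d583b7_an
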